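import Pool.Agent.helper11.VQ.Spec3a

/-!
# MP_07c750, project VQ, row VXZ (paths with fixed end points)
-/

set_option autoImplicit false

open scoped MatrixGroups ContDiff Topology UpperHalfPlane ComplexConjugate ENNReal
open UpperHalfPlane MeasureTheory Filter Set

namespace Pool.Agent.VQ

theorem VXZ_succ {Y : Type} (n : ℕ) (x y : Y) (v : Fin (n + 1) → Y) (j : ℕ) :
    vz x y v (j + 1) = vz (v 0) y (fun i : Fin n => v i.succ) j := by
  cases j with
  | zero =>
    show (if hj : 0 < n + 1 then v ⟨0, hj⟩ else y) = v 0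
    rw [dif_pos (Nat.succ_pos n)]
    rfl
  | succ j =>
    show (if hj : j + 1 < n + 1 then v ⟨j + 1, hj⟩ else y) = if hj : j < n then v (Fin.succ ⟨j, hj⟩) else y
    by_cases hj : j < n
    · rw [dif_pos hj, dif_pos (Nat.succ_lt_succ hj)]
      rfl
    · rw [dif_neg hj, dif_neg (fun h' => hj (Nat.lt_of_succ_lt_succ h'))]

theorem VXZ_last {Y : Type} (n : ℕ) (x y : Y) (v : Fin n → Y) : vz x y v (n + 1) = y := by
  show (if hj : n < n then v ⟨n, hj⟩ else y) = y
  rw [dif_neg (lt_irrefl n)]

theorem VXZ_meas {Y : Type} [MeasurableSpace Y] (n j : ℕ) :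
    Measurable fun p : (Y × Y) × (Fin n → Y) => vz p.1.1 p.1.2 p.2 j := by
  cases j with
  | zero => exact measurable_fst.comp measurable_fst
  | succ j =>
    by_cases hj : j < n
    · have h1 : (fun p : (Y × Y) × (Fin n → Y) => vz p.1.1 p.1.2 p.2 (j + 1)) =
          fun p => p.2 ⟨j, hj⟩ := by
        funext p
        show (if hj : j < n then p.2 ⟨j, hj⟩ else p.1.2) = _
        rw [dif_pos hj]
      rw [h1]
      exact (measurable_pi_apply _).comp measurable_snd
    · have h1 : (fun p : (Y × Y) × (Fin n → Y) => vz p.1.1 p.1.2 p.2 (j + 1)) =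
          fun p => p.1.2 := by
        funext p
        show (if hj : j < n then p.2 ⟨j, hj⟩ else p.1.2) = _
        rw [dif_neg hj]
      rw [h1]
      exact measurable_snd.comp measurable_fst

theorem VXZ_proof : VXZ_stmt := by
  intro Y _ m _
  have hsf : ∀ n, SigmaFinite (mZ m n) := by
    intro n
    unfold mZ
    infer_instance
  refine ⟨VXZ_succ, fun n x y v => ⟨rfl, VXZ_last n x y v⟩, VXZ_meas, hsf, fun n f hf => ?_,
    fun n f hf => ?_⟩
  · have := hsf n
    have h1 := (measurePreserving_piFinSuccAbove (fun _ : Fin (n + 1) => m) 0).lintegral_comp hf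
    rw [lintegral_prod _ hf.aemeasurable] at h1
    exact h1
  · have := hsf n
    have h1 := (measurePreserving_piFinSuccAbove (fun _ : Fin (n + 1) => m) 0).integral_comp
      (MeasurableEquiv.piFinSuccAbove (fun _ : Fin (n + 1) => Y) 0).measurableEmbedding f
    have h2 := integral_prod f hf
    rw [← h2]
    exact h1

end Pool.Agent.VQ
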