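import Pool.Agent.helper74.VQ.SpecA

/-!
# MP_07c750, project VQ, row VCD (the Cayley transform)
-/

set_option autoImplicit false

open scoped MatrixGroups ContDiff Topology UpperHalfPlane ComplexConjugate ENNReal
open UpperHalfPlane MeasureTheory Filter Set

namespace Pool.Agent.VQ

open Pool.Agent.RS

theorem VCD_neI (w : ℂ) (hw : 0 < w.im) : w + Complex.I ≠ 0 := by
  intro h
  have h1 := congrArg Complex.im h
  rw [Complex.add_im, Complex.I_im, Complex.zero_im] at h1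
  linarith

theorem VCD_sq (z : ℍ) : ‖(z : ℂ) + Complex.I‖ ^ 2 = ‖(z : ℂ) - Complex.I‖ ^ 2 + 4 * z.im := by
  rw [← Complex.normSq_eq_norm_sq, ← Complex.normSq_eq_norm_sq, Complex.normSq_apply, Complex.normSq_apply]
  simp only [Complex.add_re, Complex.add_im, Complex.sub_re, Complex.sub_im, Complex.I_re, Complex.I_im, UpperHalfPlane.coe_re,
    UpperHalfPlane.coe_im]
  ring

theorem VCD_norm (z : ℍ) : ‖cd z‖ = 2 * ‖(z : ℂ) - Complex.I‖ / ‖(z : ℂ) + Complex.I‖ := by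
  unfold cd
  rw [norm_div, norm_mul, Complex.norm_two]

theorem VCD_pos (z : ℍ) : 0 < ‖(z : ℂ) + Complex.I‖ := norm_pos_iff.2 (VCD_neI _ z.im_pos)

theorem VCD_lt (z : ℍ) : ‖(z : ℂ) - Complex.I‖ < ‖(z : ℂ) + Complex.I‖ := by
  have h := VCD_sq z
  have h1 := z.im_pos
  have h2 : ‖(z : ℂ) - Complex.I‖ ^ 2 < ‖(z : ℂ) + Complex.I‖ ^ 2 := by rw [h]; linarith
  exact lt_of_pow_lt_pow_left₀ 2 (norm_nonneg _) h2

theorem VCD_two (z : ℍ) : ‖cd z‖ < 2 := by
  rw [VCD_norm, div_lt_iff₀ (VCD_pos z)]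
  have := VCD_lt z
  linarith

theorem VCD_den (v : ℂ) (hv : ‖v‖ < 2) : (2 : ℂ) - v ≠ 0 := by
  intro h
  have h1 : v = 2 := (sub_eq_zero.1 h).symm
  rw [h1, Complex.norm_two] at hv
  exact lt_irrefl _ hv

theorem VCD_im (v : ℂ) (hv : ‖v‖ < 2) : 0 < (Complex.I * (2 + v) / (2 - v)).im := by
  have h0 : 0 < Complex.normSq (2 - v) := Complex.normSq_pos.2 (VCD_den v hv)
  have h1 : v.re ^ 2 + v.im ^ 2 < 4 := by
    have h2 : ‖v‖ ^ 2 < 2 ^ 2 := pow_lt_pow_left₀ hv (norm_nonneg _) two_ne_zero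
    rw [← Complex.normSq_eq_norm_sq, Complex.normSq_apply] at h2
    nlinarith
  have h3 : (Complex.I * (2 + v) / (2 - v)).im = (4 - (v.re ^ 2 + v.im ^ 2)) / Complex.normSq (2 - v) := by
    rw [Complex.div_im]
    simp only [Complex.mul_im, Complex.mul_re, Complex.I_re, Complex.I_im, Complex.add_re, Complex.add_im, Complex.sub_re,
      Complex.sub_im, Complex.re_ofNat, Complex.im_ofNat]
    field_simp
    ring
  rw [h3]
  exact div_pos (by linarith) h0

theorem VCD_cdi (v : ℂ) (hv : ‖v‖ < 2) : ((cdi v : ℍ) : ℂ) = Complex.I * (2 + v) / (2 - v) := by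
  unfold cdi
  rw [ofComplex_apply_of_im_pos (VCD_im v hv)]

theorem VCD_cdcdi (v : ℂ) (hv : ‖v‖ < 2) : cd (cdi v) = v := by
  unfold cd
  rw [VCD_cdi v hv]
  have h0 := VCD_den v hv
  have h1 : Complex.I * (2 + v) / (2 - v) - Complex.I = 2 * Complex.I * v / (2 - v) := by
    field_simp
    ring
  have h2 : Complex.I * (2 + v) / (2 - v) + Complex.I = 4 * Complex.I / (2 - v) := by
    field_simp
    ring
  rw [h1, h2]
  have h3 := Complex.I_ne_zero
  field_simp
  ring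

theorem VCD_cdicd (z : ℍ) : cdi (cd z) = z := by
  apply UpperHalfPlane.ext
  rw [VCD_cdi _ (VCD_two z)]
  have h0 := VCD_neI _ z.im_pos
  have h1 : (2 : ℂ) + cd z = 4 * (z : ℂ) / ((z : ℂ) + Complex.I) := by
    unfold cd
    field_simp
    ring
  have h2 : (2 : ℂ) - cd z = 4 * Complex.I / ((z : ℂ) + Complex.I) := by
    unfold cd
    field_simp
    ring
  rw [h1, h2]
  have h3 := Complex.I_ne_zero
  field_simp

theorem VCD_sl (g : SL(2, ℝ)) (w : ℂ) (hw : 0 < w.im) : ((g.1 1 0 : ℝ) : ℂ) * w + ((g.1 1 1 : ℝ) : ℂ) ≠ 0 := by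
  intro h
  have h1 := congrArg Complex.im h
  rw [Complex.add_im, Complex.im_ofReal_mul, Complex.ofReal_im, Complex.zero_im, add_zero] at h1
  have h2 : g.1 1 0 = 0 := (mul_eq_zero.1 h1).resolve_right hw.ne'
  rw [h2, Complex.ofReal_zero, zero_mul, zero_add] at h
  have h3 : g.1 1 1 = 0 := by exact_mod_cast h
  have h4 := g.2
  rw [Matrix.det_fin_two, h2, h3] at h4
  simp at h4

theorem VCD_coe (g : SL(2, ℝ)) (z : ℍ) : ((g • z : ℍ) : ℂ) =
    (((g.1 0 0 : ℝ) : ℂ) * z + ((g.1 0 1 : ℝ) : ℂ)) / (((g.1 1 0 : ℝ) : ℂ) * z + ((g.1 1 1 : ℝ) : ℂ)) :=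
  coe_specialLinearGroup_apply g z

theorem VCD_kM (θ : ℝ) (z : ℍ) : cd (kM θ • z) = Complex.exp (((2 * θ : ℝ) : ℂ) * Complex.I) * cd z := by
  have hD := VCD_sl (kM θ) z z.im_pos
  have h := VCD_coe (kM θ) z
  have h00 : (kM θ).1 0 0 = Real.cos θ := rfl
  have h01 : (kM θ).1 0 1 = Real.sin θ := rfl
  have h10 : (kM θ).1 1 0 = -Real.sin θ := rfl
  have h11 : (kM θ).1 1 1 = Real.cos θ := rfl
  rw [h00, h01, h10, h11] at h
  rw [h10, h11] at hD
  have hI := Complex.I_sq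
  set c : ℂ := ((Real.cos θ : ℝ) : ℂ) with hc
  set s : ℂ := ((Real.sin θ : ℝ) : ℂ) with hs
  have hn : ((-Real.sin θ : ℝ) : ℂ) = -s := by rw [hs]; push_cast; ring
  rw [hn] at h hD
  have e1 : (c * z + s) / (-s * z + c) - Complex.I = (c + s * Complex.I) * ((z : ℂ) - Complex.I) / (-s * z + c) := by
    rw [div_sub' hD, div_left_inj' hD]
    linear_combination (s : ℂ) * hI
  have e2 : (c * z + s) / (-s * z + c) + Complex.I = (c - s * Complex.I) * ((z : ℂ) + Complex.I) / (-s * z + c) := by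
    rw [div_add' _ _ _ hD, div_left_inj' hD]
    linear_combination (s : ℂ) * hI
  have hcs : c ^ 2 + s ^ 2 = 1 := by
    rw [hc, hs]
    exact_mod_cast Real.cos_sq_add_sin_sq θ
  have hprod : (c + s * Complex.I) * (c - s * Complex.I) = 1 := by
    linear_combination hcs - s ^ 2 * hI
  have hm : c - s * Complex.I ≠ 0 := right_ne_zero_of_mul_eq_one hprod
  have hexp : Complex.exp (((2 * θ : ℝ) : ℂ) * Complex.I) = (c + s * Complex.I) ^ 2 := by
    rw [hc, hs, Complex.ofReal_cos, Complex.ofReal_sin, Complex.cos_add_sin_I, ← Complex.exp_nat_mul]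
    congr 1
    push_cast
    ring
  have hz := VCD_neI _ z.im_pos
  unfold cd
  rw [h, e1, e2, hexp]
  have hm' : (c + s * Complex.I) ^ 2 = (c + s * Complex.I) / (c - s * Complex.I) := by
    rw [eq_div_iff hm]
    linear_combination (c + s * Complex.I) * hprod
  rw [hm']
  generalize -s * (z : ℂ) + c = D at hD ⊢
  field_simp

theorem VCD_tt (z : ℍ) : ‖cd z‖ ^ 2 * (QU.tt z I + 2) = 4 * QU.tt z I := by
  rw [VCD_norm, div_pow, mul_pow, VCD_sq]
  unfold QU.tt
  rw [UpperHalfPlane.coe_I, UpperHalfPlane.I_im]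
  have h1 := z.im_pos
  have h2 : 0 < ‖(z : ℂ) - Complex.I‖ ^ 2 + 4 * z.im := by positivity
  field_simp
  ring

theorem VCD_tanh (z : ℍ) : ‖cd z‖ = 2 * Real.tanh (dist z I / 2) := by
  rw [VCD_norm, UpperHalfPlane.tanh_half_dist, UpperHalfPlane.coe_I, Complex.conj_I, dist_eq_norm, dist_eq_norm, sub_neg_eq_add,
    mul_div_assoc]

theorem VCD_sinh (x : ℝ) (hx : 0 ≤ x) : Real.sinh x ≤ x * Real.cosh x := by
  have h : MonotoneOn (fun x : ℝ => x * Real.cosh x - Real.sinh x) (Set.Ici 0) := by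
    apply monotoneOn_of_deriv_nonneg (convex_Ici 0)
    · exact ((continuous_id.mul Real.continuous_cosh).sub Real.continuous_sinh).continuousOn
    · exact ((differentiable_id.mul Real.differentiable_cosh).sub Real.differentiable_sinh).differentiableOn
    · intro x hx
      rw [interior_Ici, Set.mem_Ioi] at hx
      have h1 : HasDerivAt (fun x : ℝ => x * Real.cosh x - Real.sinh x) (1 * Real.cosh x + x * Real.sinh x - Real.cosh x) x :=
        ((hasDerivAt_id x).mul (Real.hasDerivAt_cosh x)).sub (Real.hasDerivAt_sinh x)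
      rw [h1.deriv]
      have h2 : 0 ≤ Real.sinh x := Real.sinh_nonneg_iff.2 hx.le
      nlinarith [mul_nonneg hx.le h2]
  have h1 := h (Set.self_mem_Ici) hx hx
  simp only [zero_mul, Real.sinh_zero, sub_self] at h1
  linarith

theorem VCD_le (z : ℍ) : ‖cd z‖ ≤ dist z I := by
  rw [VCD_tanh, Real.tanh_eq_sinh_div_cosh]
  have h0 : 0 ≤ dist z I / 2 := by positivity
  have h1 := VCD_sinh _ h0
  have h2 := Real.cosh_pos (dist z I / 2)
  have h3 : Real.sinh (dist z I / 2) / Real.cosh (dist z I / 2) ≤ dist z I / 2 := by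
    rw [div_le_iff₀ h2]
    exact h1
  linarith

theorem VCD_ge (z : ℍ) (hz : ‖cd z‖ ≤ 1) : dist z I ≤ 2 * ‖cd z‖ := by
  rw [VCD_tanh] at hz ⊢
  have h0 : 0 ≤ dist z I / 2 := by positivity
  set x := dist z I / 2 with hx
  have hc : 0 < Real.cosh x := Real.cosh_pos x
  have hc1 : 1 ≤ Real.cosh x := Real.one_le_cosh x
  have hs : x ≤ Real.sinh x := Real.self_le_sinh_iff.2 h0
  have ht : Real.tanh x * Real.cosh x = Real.sinh x := by
    rw [Real.tanh_eq_sinh_div_cosh]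
    field_simp
  have ht0 : 0 ≤ Real.tanh x := by
    rw [Real.tanh_eq_sinh_div_cosh]
    exact div_nonneg (Real.sinh_nonneg_iff.2 h0) hc.le
  have hcs := Real.cosh_sq x
  have h4 : Real.cosh x ^ 2 ≤ 2 := by
    have h5 : Real.sinh x ^ 2 ≤ Real.cosh x ^ 2 / 4 := by
      rw [← ht, mul_pow]
      have h6 : Real.tanh x ^ 2 ≤ 1 / 4 := by nlinarith
      nlinarith [sq_nonneg (Real.cosh x)]
    linarith
  have h7 : x ≤ Real.tanh x * Real.cosh x ^ 2 := by
    calc x ≤ Real.sinh x := hs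
      _ = Real.tanh x * Real.cosh x := ht.symm
      _ ≤ Real.tanh x * Real.cosh x ^ 2 := by
          apply mul_le_mul_of_nonneg_left _ ht0
          nlinarith
  have h8 : Real.tanh x * Real.cosh x ^ 2 ≤ Real.tanh x * 2 := mul_le_mul_of_nonneg_left h4 ht0
  have h9 : dist z I = 2 * x := by rw [hx]; ring
  rw [h9]
  linarith

theorem VCD_cont : Continuous cd := by
  unfold cd
  refine Continuous.div ?_ ?_ (fun z => VCD_neI _ z.im_pos)
  · exact continuous_const.mul (UpperHalfPlane.continuous_coe.sub continuous_const)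
  · exact UpperHalfPlane.continuous_coe.add continuous_const

theorem VCD_ball (v : ℂ) (hv : v ∈ Metric.ball (0 : ℂ) 2) : ‖v‖ < 2 := by
  rwa [Metric.mem_ball, dist_zero_right] at hv

theorem VCD_smo : ContDiffOn ℂ ∞ (fun v : ℂ => Complex.I * (2 + v) / (2 - v)) (Metric.ball 0 2) := by
  refine ContDiffOn.div ?_ ?_ (fun v hv => VCD_den v (VCD_ball v hv))
  · exact (contDiff_const.mul (contDiff_const.add contDiff_id)).contDiffOn
  · exact (contDiff_const.sub contDiff_id).contDiffOn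

theorem VCD_mob (g : SL(2, ℝ)) : ContDiffOn ℂ ∞ (fun w : ℂ =>
    (((g.1 0 0 : ℝ) : ℂ) * w + ((g.1 0 1 : ℝ) : ℂ)) / (((g.1 1 0 : ℝ) : ℂ) * w + ((g.1 1 1 : ℝ) : ℂ))) {w : ℂ | 0 < w.im} := by
  refine ContDiffOn.div ?_ ?_ (fun w hw => VCD_sl g w hw)
  · exact ((contDiff_const.mul contDiff_id).add contDiff_const).contDiffOn
  · exact ((contDiff_const.mul contDiff_id).add contDiff_const).contDiffOn

theorem VCD_contOn : ContinuousOn cdi (Metric.ball 0 2) := by
  rw [UpperHalfPlane.isEmbedding_coe.continuousOn_iff]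
  exact VCD_smo.continuousOn.congr (fun v hv => VCD_cdi v (VCD_ball v hv))

theorem VCD_smooth (g : SL(2, ℝ)) : ContDiffOn ℝ ∞ (fun v : ℂ => ((g • cdi v : ℍ) : ℂ)) (Metric.ball 0 2) := by
  have h1 := (VCD_mob g).comp VCD_smo (fun v hv => VCD_im v (VCD_ball v hv))
  refine (h1.restrict_scalars ℝ).congr (fun v hv => ?_)
  rw [VCD_coe, VCD_cdi v (VCD_ball v hv)]
  rfl

theorem VCD_CD (g : SL(2, ℝ)) : QU.CD ∞ (fun z : ℍ => cd (g • z)) := by
  unfold QU.CD
  have hM := VCD_mob g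
  set m : ℂ → ℂ := fun w : ℂ =>
    (((g.1 0 0 : ℝ) : ℂ) * w + ((g.1 0 1 : ℝ) : ℂ)) / (((g.1 1 0 : ℝ) : ℂ) * w + ((g.1 1 1 : ℝ) : ℂ)) with hm
  have hco : ∀ w : ℂ, 0 < w.im → ((g • ofComplex w : ℍ) : ℂ) = m w := by
    intro w hw
    rw [VCD_coe, ofComplex_apply_of_im_pos hw]
  have h1 : ContDiffOn ℂ ∞ (fun w => 2 * (m w - Complex.I) / (m w + Complex.I)) {w : ℂ | 0 < w.im} := by
    refine ContDiffOn.div ?_ ?_ ?_
    · exact contDiffOn_const.mul (hM.sub contDiffOn_const)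
    · exact hM.add contDiffOn_const
    · intro w hw
      rw [← hco w hw]
      exact VCD_neI _ (g • ofComplex w).im_pos
  refine (h1.restrict_scalars ℝ).congr (fun w hw => ?_)
  change cd (g • ofComplex w) = _
  unfold cd
  rw [hco w hw]

theorem VCD_proof : VCD_stmt := by
  refine ⟨fun z => ⟨VCD_two z, VCD_cdicd z⟩, fun v hv => ⟨VCD_cdcdi v hv, VCD_cdi v hv⟩, ?_, VCD_kM, VCD_tt, VCD_le, VCD_ge,
    VCD_cont, ?_, VCD_smooth, VCD_CD⟩
  · unfold cd
    rw [UpperHalfPlane.coe_I, sub_self, mul_zero, zero_div]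
  · intro g
    exact (continuous_const_smul g).comp_continuousOn VCD_contOn

end Pool.Agent.VQ
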