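import Pool.Agent.helper55.VQ.SpecD
import Pool.Agent.helper44.VQ.VFB

/-!
# MP_07c750, project VQ, row EDA: Schur bound with absolute values
-/

set_option autoImplicit false

open scoped MatrixGroups ContDiff Topology UpperHalfPlane ComplexConjugate ENNReal
open UpperHalfPlane MeasureTheory Filter Set

namespace Pool.Agent.VQ

open Pool.Agent.RS
open Pool.Agent.RPQ (CEig mean VV IsOp)

noncomputable section

/-- the set of the points with disc coordinate at most `r` is closed -/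
theorem EDA_closed (hVCD : VCD_stmt) (g : SL(2, ℝ)) (r : ℝ) : MeasurableSet {z : ℍ | ‖cd (g⁻¹ • z)‖ ≤ r} := by
  obtain ⟨-, -, -, -, -, -, -, hc, -⟩ := hVCD
  refine IsClosed.measurableSet (isClosed_le ?_ continuous_const)
  exact (hc.comp (continuous_const_smul g⁻¹)).norm

/-- the area of a disc -/
theorem EDA_area (hVCM : VCM_stmt) (hVCD : VCD_stmt) (g : SL(2, ℝ)) (r : ℝ) (h0 : 0 ≤ r) (hr : r ≤ 1) :
    volume {z : ℍ | ‖cd (g⁻¹ • z)‖ ≤ r} ≤ ENNReal.ofReal (8 * r ^ 2) := by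
  have hm := EDA_closed hVCD g r
  rw [← lintegral_indicator_one hm, hVCM.2.1 g _ (measurable_one.indicator hm)]
  have h1 : ∀ v ∈ Metric.ball (0 : ℂ) 2, ENNReal.ofReal (jd v) * ({z : ℍ | ‖cd (g⁻¹ • z)‖ ≤ r}.indicator 1 (g • cdi v)) ≤
      (Metric.closedBall (0 : ℂ) r).indicator (fun _ => (2 : ℝ≥0∞)) v := by
    intro v hv
    have hv2 : ‖v‖ < 2 := by simpa using hv
    have h2 : cd (g⁻¹ • g • cdi v) = v := by
      rw [inv_smul_smul]
      exact (hVCD.2.1 v hv2).1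
    by_cases hvr : ‖v‖ ≤ r
    · have h3 : v ∈ Metric.closedBall (0 : ℂ) r := by simpa using hvr
      have h4 : g • cdi v ∈ {z : ℍ | ‖cd (g⁻¹ • z)‖ ≤ r} := by
        show ‖cd (g⁻¹ • g • cdi v)‖ ≤ r
        rw [h2]
        exact hvr
      rw [indicator_of_mem h3, indicator_of_mem h4, Pi.one_apply, mul_one]
      have h5 : jd v ≤ 2 := by
        unfold jd
        have h6 : ‖v‖ ≤ 1 := hvr.trans hr
        have h7 : ‖v‖ ^ 2 ≤ 1 := by
          have := norm_nonneg v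
          nlinarith
        rw [inv_le_comm₀ (by nlinarith [sq_nonneg (‖v‖)]) (by norm_num)]
        nlinarith
      calc ENNReal.ofReal (jd v) ≤ ENNReal.ofReal 2 := ENNReal.ofReal_le_ofReal h5
        _ = 2 := by norm_num
    · have h4 : g • cdi v ∉ {z : ℍ | ‖cd (g⁻¹ • z)‖ ≤ r} := by
        show ¬ ‖cd (g⁻¹ • g • cdi v)‖ ≤ r
        rw [h2]
        exact hvr
      rw [indicator_of_notMem h4, mul_zero]
      exact zero_le
  calc ∫⁻ v in Metric.ball (0 : ℂ) 2, ENNReal.ofReal (jd v) * ({z : ℍ | ‖cd (g⁻¹ • z)‖ ≤ r}.indicator 1 (g • cdi v))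
      ≤ ∫⁻ v in Metric.ball (0 : ℂ) 2, (Metric.closedBall (0 : ℂ) r).indicator (fun _ => (2 : ℝ≥0∞)) v :=
        setLIntegral_mono' Metric.isOpen_ball.measurableSet h1
    _ ≤ ∫⁻ v, (Metric.closedBall (0 : ℂ) r).indicator (fun _ => (2 : ℝ≥0∞)) v := setLIntegral_le_lintegral _ _
    _ = 2 * volume (Metric.closedBall (0 : ℂ) r) := lintegral_indicator_const Metric.isClosed_closedBall.measurableSet _
    _ ≤ ENNReal.ofReal (8 * r ^ 2) := by
        rw [Complex.volume_closedBall]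
        have h2 : (NNReal.pi : ℝ≥0∞) ≤ 4 := by
          have h3 : (NNReal.pi : ℝ≥0∞) = ENNReal.ofReal Real.pi := by
            rw [ENNReal.ofReal]
            congr 1
            exact (Real.toNNReal_coe (r := NNReal.pi)).symm
          rw [h3]
          calc ENNReal.ofReal Real.pi ≤ ENNReal.ofReal 4 := ENNReal.ofReal_le_ofReal Real.pi_le_four
            _ = 4 := by norm_num
        calc 2 * (ENNReal.ofReal r ^ 2 * (NNReal.pi : ℝ≥0∞)) ≤ 2 * (ENNReal.ofReal r ^ 2 * 4) := by gcongr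
          _ = ENNReal.ofReal (8 * r ^ 2) := by
              rw [← ENNReal.ofReal_pow h0, ENNReal.ofReal_mul (by norm_num)]
              have h8 : ENNReal.ofReal 8 = 2 * 4 := by norm_num
              rw [h8]
              ring

/-- the area of a hyperbolic ball -/
theorem EDA_ball (hVCM : VCM_stmt) (hVCD : VCD_stmt) (z : ℍ) (s : ℝ) (h0 : 0 ≤ s) (hs : s ≤ 1) :
    volume (Metric.closedBall z s) ≤ ENNReal.ofReal (8 * s ^ 2) := by
  refine le_trans (measure_mono ?_) (EDA_area hVCM hVCD (toSL2R z) s h0 hs)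
  intro w hw
  show ‖cd ((toSL2R z)⁻¹ • w)‖ ≤ s
  obtain ⟨-, -, -, -, -, hd, -⟩ := hVCD
  refine (hd _).trans ?_
  have h1 : dist ((toSL2R z)⁻¹ • w) I = dist w z := by
    have h2 := dist_smul (toSL2R z) ((toSL2R z)⁻¹ • w) I
    rw [smul_inv_smul, toSL2R_smul_I] at h2
    exact h2.symm
  rw [h1]
  exact hw

/-- the bounds of a packet -/
theorem EDA_pk {K : ℕ} {η m R ρ : ℝ} {f : ℂ → ℂ} (h : Pk K η m R ρ f) :
    (∀ v, ‖f v‖ ≤ m) ∧ ∀ v, f v ≠ 0 → ‖v‖ ≤ R ^ (-(1 / 2) + η) := by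
  obtain ⟨A, -, h1, h2, h3⟩ := h
  refine ⟨fun v => ?_, fun v hv => h1 v fun h0 => hv ?_⟩
  · rw [h3 v, norm_mul, Complex.norm_exp_ofReal_mul_I, one_mul]
    have := h2 0 (Nat.zero_le _) v
    rwa [norm_iteratedFDeriv_zero, pow_zero, mul_one] at this
  · rw [h3 v, h0, mul_zero]

/-- the sum over `z` -/
theorem EDA_row (hVCM : VCM_stmt) (hVCD : VCD_stmt) {f : ℂ → ℂ} {m r : ℝ} (h1 : ∀ v, ‖f v‖ ≤ m) (h2 : ∀ v, f v ≠ 0 → ‖v‖ ≤ r)
    (h0 : 0 ≤ r) (hr : r ≤ 1) (g : SL(2, ℝ)) : ∫⁻ z : ℍ, ‖f (cd (g⁻¹ • z))‖ₑ ≤ ENNReal.ofReal (m * (8 * r ^ 2)) := by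
  have hm0 : 0 ≤ m := (norm_nonneg _).trans (h1 0)
  have hm := EDA_closed hVCD g r
  calc ∫⁻ z : ℍ, ‖f (cd (g⁻¹ • z))‖ₑ ≤ ∫⁻ z : ℍ, {z : ℍ | ‖cd (g⁻¹ • z)‖ ≤ r}.indicator (fun _ => ENNReal.ofReal m) z := by
        refine lintegral_mono fun z => ?_
        show ‖f (cd (g⁻¹ • z))‖ₑ ≤ {z : ℍ | ‖cd (g⁻¹ • z)‖ ≤ r}.indicator (fun _ => ENNReal.ofReal m) z
        by_cases hz : f (cd (g⁻¹ • z)) = 0
        · rw [hz, enorm_zero]
          exact zero_le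
        · rw [indicator_of_mem (show z ∈ {z : ℍ | ‖cd (g⁻¹ • z)‖ ≤ r} from h2 _ hz), ← ofReal_norm]
          exact ENNReal.ofReal_le_ofReal (h1 _)
    _ = ENNReal.ofReal m * volume {z : ℍ | ‖cd (g⁻¹ • z)‖ ≤ r} := lintegral_indicator_const hm _
    _ ≤ ENNReal.ofReal m * ENNReal.ofReal (8 * r ^ 2) := by
        gcongr
        exact EDA_area hVCM hVCD g r h0 hr
    _ = ENNReal.ofReal (m * (8 * r ^ 2)) := (ENNReal.ofReal_mul hm0).symm

/-- the sum over the frames -/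
theorem EDA_col (hVCM : VCM_stmt) (hVCD : VCD_stmt) {D : Dyn} {R t m r : ℝ} {f : SL(2, ℝ) × ℝ → ℂ → ℂ}
    (hfl : ∀ E : ℝ, |E| ≤ 1 / 8 → MeasurePreserving (D.fl E t) mG mG) (hw : 2 * R ^ (-(1 / 4) : ℝ) ≤ 1 / 8)
    (hmeas : Measurable (fun x : (SL(2, ℝ) × ℝ) × ℍ => VFB_P D R t f x.1 x.2)) (hm0 : 0 ≤ m)
    (h1 : ∀ p ∈ GW 2 R, ∀ v, ‖f p v‖ ≤ m) (h2 : ∀ p ∈ GW 2 R, ∀ v, f p v ≠ 0 → ‖v‖ ≤ r) (h0 : 0 ≤ r) (hr : r ≤ 1 / 2) (z : ℍ) :
    ∫⁻ p, ‖VFB_P D R t f p z‖ₑ ∂(mP.restrict (GW 2 R)) ≤ ENNReal.ofReal (m * (32 * r ^ 2) * (4 * R ^ (-(1 / 4) : ℝ))) := by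
  have : SigmaFinite mG := RS.A_GMG.2.2.1
  have hmz : Measurable (fun p : SL(2, ℝ) × ℝ => ‖VFB_P D R t f p z‖ₑ) := by
    have e1 : Measurable (fun p : SL(2, ℝ) × ℝ => (p, z)) := measurable_id.prodMk measurable_const
    exact (hmeas.comp e1).enorm
  have e1 : (mP.restrict (GW 2 R)) = mG.prod ((volume : Measure ℝ).restrict (Wi 2 R)) := by
    rw [mP, GW, ← Measure.prod_restrict, Measure.restrict_univ]
  rw [e1, lintegral_prod_symm' _ hmz]
  have hballm : MeasurableSet (Metric.closedBall z (2 * r)) := Metric.isClosed_closedBall.measurableSet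
  have hdG := RS.A_GMG.1 _ hballm
  calc ∫⁻ E in Wi 2 R, ∫⁻ g, ‖VFB_P D R t f (g, E) z‖ₑ ∂mG
      ≤ ∫⁻ _ in Wi 2 R, ENNReal.ofReal (m * (32 * r ^ 2)) := by
        refine setLIntegral_mono' measurableSet_Icc fun E hE => ?_
        have hE8 : |E| ≤ 1 / 8 := (abs_le.2 hE).trans hw
        have hpre : MeasurableSet (D.fl E t ⁻¹' dG (Metric.closedBall z (2 * r))) := (hfl E hE8).measurable hdG.1
        calc ∫⁻ g, ‖VFB_P D R t f (g, E) z‖ₑ ∂mG
            ≤ ∫⁻ g, (D.fl E t ⁻¹' dG (Metric.closedBall z (2 * r))).indicator (fun _ => ENNReal.ofReal m) g ∂mG := by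
              refine lintegral_mono fun g => ?_
              show ‖VFB_P D R t f (g, E) z‖ₑ ≤ _
              have hp : ((g, E) : SL(2, ℝ) × ℝ) ∈ GW 2 R := ⟨mem_univ _, hE⟩
              rw [VFB_P_mem hp]
              by_cases hz : pF D t f (g, E) z = 0
              · rw [hz, enorm_zero]
                exact zero_le
              · have h3 : ‖cd ((D.fl E t g)⁻¹ • z)‖ ≤ r := h2 _ hp _ hz
                obtain ⟨-, -, -, -, -, -, hd, -⟩ := hVCD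
                have h4 := hd _ (h3.trans (by linarith))
                have h5 : dist ((D.fl E t g)⁻¹ • z) I = dist (D.fl E t g • I : ℍ) z := by
                  have h6 := dist_smul (D.fl E t g) ((D.fl E t g)⁻¹ • z) I
                  rw [smul_inv_smul] at h6
                  rw [dist_comm (D.fl E t g • I : ℍ) z]
                  exact h6.symm
                have h6 : g ∈ D.fl E t ⁻¹' dG (Metric.closedBall z (2 * r)) := by
                  show (D.fl E t g • I : ℍ) ∈ Metric.closedBall z (2 * r)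
                  rw [Metric.mem_closedBall, ← h5]
                  linarith
                rw [indicator_of_mem h6, ← ofReal_norm]
                exact ENNReal.ofReal_le_ofReal (h1 _ hp _)
          _ = ENNReal.ofReal m * mG (D.fl E t ⁻¹' dG (Metric.closedBall z (2 * r))) := lintegral_indicator_const hpre _
          _ = ENNReal.ofReal m * volume (Metric.closedBall z (2 * r)) := by
              rw [(hfl E hE8).measure_preimage hdG.1.nullMeasurableSet, hdG.2]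
          _ ≤ ENNReal.ofReal m * ENNReal.ofReal (8 * (2 * r) ^ 2) := by
              gcongr
              exact EDA_ball hVCM hVCD z (2 * r) (by linarith) (by linarith)
          _ = ENNReal.ofReal (m * (32 * r ^ 2)) := by
              rw [← ENNReal.ofReal_mul hm0]
              congr 1
              ring
    _ = ENNReal.ofReal (m * (32 * r ^ 2)) * volume (Wi 2 R) := by
        rw [setLIntegral_const]
    _ = ENNReal.ofReal (m * (32 * r ^ 2) * (4 * R ^ (-(1 / 4) : ℝ))) := by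
        rw [Wi, Real.volume_Icc, ← ENNReal.ofReal_mul (by positivity)]
        congr 2
        ring

/-- the norm as a lower integral -/
theorem EDA_nn {Γ : Subgroup SL(2, ℝ)} {F : Set ℍ} {φ : ℍ → ℂ} (hF : MeasurableSet F) (hφ : FH Γ F φ) :
    ∫⁻ z in F, ‖φ z‖ₑ ^ 2 = ENNReal.ofReal (nn F φ) := by
  obtain ⟨b, hb⟩ := hφ.supp
  have g1 : IntegrableOn (fun z => ‖φ z‖ ^ 2) (Metric.closedBall I b) :=
    (hφ.cont.norm.pow 2).continuousOn.integrableOn_compact (isCompact_closedBall _ _)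
  have g2 : IntegrableOn (fun z => ‖φ z‖ ^ 2) F := by
    refine g1.of_forall_sdiff_eq_zero hF fun z hz => ?_
    by_contra h0
    refine hz.2 (hb z hz.1 fun h4 => h0 ?_)
    simp [h4]
  rw [nn, ofReal_integral_eq_lintegral_ofReal g2 (Eventually.of_forall fun z => by positivity)]
  refine lintegral_congr fun z => ?_
  rw [ENNReal.ofReal_pow (norm_nonneg _), ofReal_norm]

theorem EDA_big {R : ℝ} (hR : (2 : ℝ) ^ (400 : ℕ) ≤ R) : 65536 ≤ R ∧ 1024 ≤ R ^ (1 / 40 : ℝ) := by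
  constructor
  · refine le_trans ?_ hR
    calc (65536 : ℝ) = 2 ^ 16 := by norm_num
      _ ≤ 2 ^ (400 : ℕ) := pow_le_pow_right₀ (by norm_num) (by norm_num)
  · have e5 : (1024 : ℝ) = ((2 : ℝ) ^ (400 : ℕ)) ^ (1 / 40 : ℝ) := by
      rw [← Real.rpow_natCast, ← Real.rpow_mul (by norm_num)]
      norm_num
    rw [e5]
    exact Real.rpow_le_rpow (by positivity) hR (by norm_num)

/-- the exponents -/
theorem EDA_exp {R η : ℝ} (hR1 : 1 ≤ R) (e4 : 1024 ≤ R ^ (1 / 40 : ℝ)) (hη : η ≤ 1 / 240) :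
    R ^ (3 / 2 + η) * (8 * (R ^ (-(1 / 2) + η)) ^ 2) * (R ^ (3 / 2 + η) * (32 * (R ^ (-(1 / 2) + η)) ^ 2) * (4 * R ^ (-(1 / 4) : ℝ))) ≤ R ^ (4 / 5 : ℝ) := by
  have hR0 : 0 < R := by linarith
  have e1 : R ^ (3 / 2 + η) * (8 * (R ^ (-(1 / 2) + η)) ^ 2) * (R ^ (3 / 2 + η) * (32 * (R ^ (-(1 / 2) + η)) ^ 2) * (4 * R ^ (-(1 / 4) : ℝ))) =
      1024 * R ^ (3 / 4 + 6 * η) := by
    have e2 : (R ^ (-(1 / 2) + η)) ^ 2 = R ^ (-1 + 2 * η) := by
      rw [← Real.rpow_natCast, ← Real.rpow_mul hR0.le]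
      congr 1
      push_cast
      ring
    rw [e2]
    have e3 : R ^ (3 / 4 + 6 * η) = R ^ (3 / 2 + η) * R ^ (-1 + 2 * η) * (R ^ (3 / 2 + η) * R ^ (-1 + 2 * η) * R ^ (-(1 / 4) : ℝ)) := by
      rw [← Real.rpow_add hR0, ← Real.rpow_add hR0, ← Real.rpow_add hR0]
      congr 1
      ring
    rw [e3]
    ring
  rw [e1]
  calc 1024 * R ^ (3 / 4 + 6 * η) ≤ R ^ (1 / 40 : ℝ) * R ^ (3 / 4 + 6 * η) := mul_le_mul_of_nonneg_right e4 (by positivity)
    _ = R ^ (1 / 40 + (3 / 4 + 6 * η)) := (Real.rpow_add hR0 _ _).symm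
    _ ≤ R ^ (4 / 5 : ℝ) := Real.rpow_le_rpow_of_exponent_le hR1 (by linarith)

theorem EDA_proof (hVSH : VSH_stmt) (hVDM : VDM_stmt) (hVFM : VFM_stmt) (hVFR : VFR_stmt) (hHFM : HFM_stmt) (hVCM : VCM_stmt) (hVCD : VCD_stmt) : EDA_stmt := by
  obtain ⟨C0, hC0, H⟩ := hVFM
  refine ⟨240 * C0, by linarith, fun ch B A hch hA => ?_⟩
  have hA0 : Adm C0 A := Adm_mono hA hC0 (by linarith)
  obtain ⟨hz0, hz1, hz2, he3, -, -, hRg⟩ := Adm_small hA0 hC0
  obtain ⟨-, -, -, -, hup, -, -⟩ := Adm_small hA (by linarith)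
  have hz10 : 0 < A.z1 := lt_of_lt_of_le hz0 hz1
  have hη0 : 0 < C0 * A.z1 := by positivity
  have hη : C0 * A.z1 ≤ 1 / 240 := by nlinarith
  obtain ⟨R0, hR0, HR⟩ := H ch 0 A.e3 A.z A.z1 B hch hRg
  refine ⟨max R0 (2 ^ (400 : ℕ)), hR0.trans (le_max_left _ _), ?_⟩
  intro R δ t Γ F D φ hR hD hok hδ hφ ht0 ht
  have hRa : R0 ≤ R := (le_max_left _ _).trans hR
  obtain ⟨hRc, hRd⟩ := EDA_big ((le_max_right _ _).trans hR)
  clear hR
  have hR1 : (1 : ℝ) ≤ R := by linarith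
  have ht' : |t| ≤ A.e3 * Real.log R := by
    rw [abs_of_nonneg ht0]
    exact ht
  obtain ⟨hFa, -, -, hpsi, -⟩ := HR R δ t Γ D hRa hok hδ ht'
  obtain ⟨hw1, hw2⟩ := VFB_win hRc
  set η : ℝ := C0 * A.z1 with hηd
  set m : ℝ := R ^ (3 / 2 + η) with hmd
  have hm0 : 0 ≤ m := by positivity
  set r : ℝ := R ^ (-(1 / 2) + η) with hrd
  have hr0 : 0 ≤ r := by positivity
  have hr4 : r ≤ 1 / 4 := hw2 η (by linarith)
  obtain ⟨hc, hbd, hinv, -, -, -⟩ := hVFR Γ F δ B D 0 η m R t _ hD hok hδ hη0 (by linarith) hm0 hr4 hw1 hR1 hFa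
  have hRR : VFB_R Γ D R t m (pv D ch A.z A.z1 R t) := VFB_mkR hw1 hm0 hc hbd hinv
  have hpk : ∀ p ∈ GW 2 R, (∀ v, ‖pv D ch A.z A.z1 R t p v‖ ≤ m) ∧ ∀ v, pv D ch A.z A.z1 R t p v ≠ 0 → ‖v‖ ≤ r :=
    fun p hp => EDA_pk (hFa.pk p hp)
  obtain ⟨hcG, hF, huni, hmpH, hWW⟩ := hVDM Γ F hD
  obtain ⟨hsf, hmp, -, hres, hdG, -⟩ := hWW (Wi 2 R) measurableSet_Icc
  set W : Measure (SL(2, ℝ) × ℝ) := mP.restrict (GW 2 R) with hWd
  have hsf' : SigmaFinite W := hsf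
  have hresW : W.restrict (dG F ×ˢ univ) = mP.restrict (PW F 2 R) := hres
  have hPWm : MeasurableSet (PW F 2 R) := hdG.prod measurableSet_Icc
  have hPG : PW F 2 R ⊆ GW 2 R := fun p hp => ⟨mem_univ _, hp.2⟩
  have hmain : ∫⁻ x in PW F 2 R, (∫⁻ z : ℍ, ‖VFB_P D R t (pv D ch A.z A.z1 R t) x z‖ₑ * ‖φ z‖ₑ) ^ 2 ∂mP ≤
      ENNReal.ofReal (m * (8 * r ^ 2)) * ENNReal.ofReal (m * (32 * r ^ 2) * (4 * R ^ (-(1 / 4) : ℝ))) * ∫⁻ z in F, ‖φ z‖ₑ ^ 2 := by
    rw [← hresW]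
    refine (hVSH Γ (SL(2, ℝ) × ℝ) ℍ W volume (dG F ×ˢ univ) F ?_ ?_ ?_ ?_ ?_ ?_
      (fun p z => ‖VFB_P D R t (pv D ch A.z A.z1 R t) p z‖ₑ) hRR.meas.enorm ?_).2 _ _ (fun z => ‖φ z‖ₑ) hφ.cont.measurable.enorm ?_ ?_ ?_
    · exact fun γ => hmp γ
    · exact hmpH
    · intro x
      obtain ⟨γ, h1, h2⟩ := huni (x.1 • I)
      refine ⟨γ, ⟨?_, mem_univ _⟩, fun γ' h' => h2 γ' ?_⟩
      · show (((γ : SL(2, ℝ)) * x.1) • I : ℍ) ∈ F
        rw [mul_smul]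
        exact h1
      · have h3 : (((γ' : SL(2, ℝ)) * x.1) • I : ℍ) ∈ F := h'.1
        rw [mul_smul] at h3
        exact h3
    · exact huni
    · exact hdG.prod MeasurableSet.univ
    · exact hF
    · intro γ p z
      show ‖VFB_P D R t (pv D ch A.z A.z1 R t) ((γ : SL(2, ℝ)) * p.1, p.2) (γ • z)‖ₑ = _
      rw [hRR.inv]
    · intro γ z
      show ‖φ (γ • z)‖ₑ = ‖φ z‖ₑ
      rw [hφ.inv]
    · intro p
      by_cases hp : p ∈ GW 2 R
      · refine le_trans (le_of_eq (lintegral_congr fun z => ?_)) (EDA_row hVCM hVCD (hpk p hp).1 (hpk p hp).2 hr0 (by linarith) (D.fl p.2 t p.1))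
        rw [VFB_P_mem hp, pF]
      · have h0 : ∀ z, ‖VFB_P D R t (pv D ch A.z A.z1 R t) p z‖ₑ = 0 := fun z => by rw [VFB_P_notMem hp, enorm_zero]
        simp [h0]
    · intro z
      exact EDA_col hVCM hVCD (fun E hE => hHFM Γ δ B D hok hδ E t hE) hw1 hRR.meas hm0
        (fun p hp => (hpk p hp).1) (fun p hp => (hpk p hp).2) hr0 (by linarith) z
  have hcongr : ∫⁻ p in PW F 2 R, (∫⁻ z : ℍ, ‖φ z‖ₑ * ‖psi D ch A.z A.z1 R t p z‖ₑ) ^ 2 ∂mP =
      ∫⁻ x in PW F 2 R, (∫⁻ z : ℍ, ‖VFB_P D R t (pv D ch A.z A.z1 R t) x z‖ₑ * ‖φ z‖ₑ) ^ 2 ∂mP := by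
    refine setLIntegral_congr_fun hPWm fun p hp => ?_
    congr 1
    refine lintegral_congr fun z => ?_
    rw [VFB_P_mem (hPG hp), hpsi, mul_comm]
  rw [hcongr]
  refine hmain.trans ?_
  rw [EDA_nn hF hφ, ← ENNReal.ofReal_mul (by positivity), ← ENNReal.ofReal_mul (by positivity)]
  refine ENNReal.ofReal_le_ofReal (mul_le_mul_of_nonneg_right (EDA_exp hR1 hRd hη) ?_)
  exact integral_nonneg fun z => by positivity

end

end Pool.Agent.VQ
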