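import Pool.Agent.helper84.VQ.Spec4a

/-!
# MP_07c750, project VQ, row RE4 (local phase of two pseudo-orbits)
-/

set_option autoImplicit false

open scoped MatrixGroups ContDiff Topology UpperHalfPlane ComplexConjugate ENNReal
open UpperHalfPlane MeasureTheory Filter Set

namespace Pool.Agent.VQ

open Pool.Agent.RS
open Pool.Agent.VQE (nm)

noncomputable section

/-- the invariants -/
def RE4_P (D : Dyn) (w w' : ℕ → SL(2, ℝ) × ℝ) (K0 ε s : ℝ) (j : ℕ) : Prop :=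
  (zz D w w' s j).1 0 0 = (zz D w w' s j).1 1 1 ∧ 0 < (zz D w w' s j).1 0 0 ∧
    |s| ≤ 2 * K0 * (j * ε) + |(zz D w w' s j).1 1 0| / 10 ∧
    |(zz D w w' s j).1 0 1| ≤ 8 * K0 * ε + |(zz D w w' s j).1 1 0| / 2 ∧ |(zz D w w' s j).1 1 0| ≤ 1 / 2

/-- one step -/
def RE4_Q (D : Dyn) (w w' : ℕ → SL(2, ℝ) × ℝ) (K ε s s1 : ℝ) (j : ℕ) : Prop :=
  |(zz D w w' s j).1 1 0| ≤ 1 / K ∧ |(zz D w w' s j).1 1 0| ≤ 3 / 5 * |(zz D w w' s1 (j + 1)).1 1 0| + K * ε ∧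
      (K * ε ≤ |(zz D w w' s j).1 1 0| → 0 < (zz D w w' s j).1 1 0 * (zz D w w' s1 (j + 1)).1 1 0 ∧
        |(zz D w w' s j).1 1 0| ≤ |(zz D w w' s1 (j + 1)).1 1 0|)

/-- the arithmetic of one step -/
theorem RE4_num (K0 ε d a y e K : ℝ) (hK0 : 1 ≤ K0) (hK : K = 200 * K0 ^ 2) (hε : 0 < ε) (hKd : K0 * d ≤ 1 / 200)
    (ha0 : 0 ≤ a) (hy0 : 0 ≤ y) (he : e = K0 * (d * (a + y) + ε)) (ha : a ≤ 8 * K0 * ε + y / 2) :
    e ≤ 21 / 20 * (K0 * ε) + 3 / 400 * y := by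
  have h1 : K0 * d * (a + y) ≤ 1 / 200 * (a + y) := mul_le_mul_of_nonneg_right hKd (by linarith)
  have h2 : e = K0 * d * (a + y) + K0 * ε := by rw [he]; ring
  have h3 : 0 < K0 * ε := by positivity
  rw [h2]
  nlinarith

theorem RE4_sign (l x10 z10 e : ℝ) (hl : 2 ≤ l) (hx : 0 < |x10|) (hz : |z10 - l * x10| ≤ e) (he : e < |x10|) : 0 < x10 * z10 := by
  have h1 : 0 < x10 ^ 2 := by
    rw [← sq_abs]
    positivity
  have h2 : |x10 * (z10 - l * x10)| ≤ |x10| * e := by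
    rw [abs_mul]
    exact mul_le_mul_of_nonneg_left hz (abs_nonneg _)
  have h3 := (abs_le.1 h2).1
  have h4 : |x10| * e < x10 ^ 2 := by
    rw [← sq_abs, pow_two]
    exact mul_lt_mul_of_pos_left he hx
  nlinarith

theorem RE4_step (K0 K : ℝ) (hK0 : 1 ≤ K0) (hK : K = 200 * K0 ^ 2)
    (hSP : ∀ (d : ℝ) (D : Dyn), FE d D → 0 < d → d ≤ 1 / K0 → ∀ (t ε S E E' E1' : ℝ) (g g' g1 g1' x : SL(2, ℝ)), 1 ≤ t → t ≤ 2 → 0 ≤ ε → ε ≤ 1 / K0 → |S| ≤ 1 / 2 →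
      |E| ≤ d / 4 → |E'| ≤ d / 4 → |E1'| ≤ d / 4 → |E' - E| ≤ ε → |E1' - E'| ≤ ε → nm ((D.fl E t g)⁻¹ * g1) ≤ ε → nm ((D.fl E' t g')⁻¹ * g1') ≤ ε →
      x = g⁻¹ * D.fl E' S g' → x.1 0 0 = x.1 1 1 → 0 < x.1 0 0 → |x.1 0 1| ≤ 1 / K0 → |x.1 1 0| ≤ 1 / K0 →
      ∃ (S1 lam : ℝ) (z : SL(2, ℝ)), z = g1⁻¹ * D.fl E1' S1 g1' ∧ |S1 - S| ≤ K0 * (d * (|x.1 0 1| + |x.1 1 0|) + ε) ∧ z.1 0 0 = z.1 1 1 ∧ 0 < z.1 0 0 ∧ 2 ≤ lam ∧ lam ≤ 10 ∧
        |z.1 1 0 - lam * x.1 1 0| ≤ K0 * (d * (|x.1 0 1| + |x.1 1 0|) + ε) ∧ |z.1 0 1| ≤ 1 / 2 * |x.1 0 1| + K0 * (d * (|x.1 0 1| + |x.1 1 0|) + ε))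
    (d : ℝ) (D : Dyn) (hFE : FE d D) (hd : 0 < d) (hdK : d ≤ 1 / K) (t ε : ℝ) (n : ℕ) (w w' : ℕ → SL(2, ℝ) × ℝ)
    (ht1 : 1 ≤ t) (ht2 : t ≤ 2) (hε : 0 < ε) (hn : K * ((n + 1) * ε) ≤ 1) (hw : PO D d t ε n w) (hw' : PO D d t ε n w')
    (hen : ∀ i ≤ n, |(w' i).2 - (w i).2| ≤ ε) (j : ℕ) (hj : j + 1 ≤ n) (s : ℝ) (hP : RE4_P D w w' K0 ε s j)
    (hy : |(zz D w w' s j).1 1 0| ≤ 1 / K) :
    ∃ s1 : ℝ, RE4_P D w w' K0 ε s1 (j + 1) ∧ RE4_Q D w w' K ε s s1 j := by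
  obtain ⟨p1, p2, p3, p4, p5⟩ := hP
  have hKpos : 0 < K := by rw [hK]; positivity
  have hKK0 : 200 * K0 ≤ K := by rw [hK]; nlinarith
  have hK0inv : 200 * K0 * (1 / K) ≤ 1 / K0 := by
    rw [hK]
    have : K0 ≠ 0 := by positivity
    have h : 200 * K0 * (1 / (200 * K0 ^ 2)) = 1 / K0 := by field_simp
    rw [h]
  have hK0p : 0 < K0 := by linarith
  have hKinv : 1 / K ≤ 1 / K0 := one_div_le_one_div_of_le hK0p (by linarith)
  have hKinv2 : 1 / K ≤ 1 / 200 := one_div_le_one_div_of_le (by norm_num) (by linarith)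
  have hKd : K0 * d ≤ 1 / 200 := by
    have h1 : d * K ≤ 1 := by rwa [le_div_iff₀ hKpos] at hdK
    have h2 : d * (200 * K0) ≤ d * K := mul_le_mul_of_nonneg_left hKK0 hd.le
    linarith
  have hn0 : (0 : ℝ) ≤ n := Nat.cast_nonneg n
  have hεK : ε ≤ 1 / K := by
    rw [le_div_iff₀ hKpos]
    have h1 : K * ε ≤ K * ((n + 1) * ε) := by
      apply mul_le_mul_of_nonneg_left _ hKpos.le
      nlinarith
    linarith
  have hjn : (j : ℝ) + 1 ≤ n := by exact_mod_cast hj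
  have hjε : (j : ℝ) * ε ≤ 1 / K := by
    rw [le_div_iff₀ hKpos]
    have h1 : K * ((j : ℝ) * ε) ≤ K * ((n + 1) * ε) := by
      apply mul_le_mul_of_nonneg_left _ hKpos.le
      nlinarith
    linarith
  have hj0 : (0 : ℝ) ≤ j := Nat.cast_nonneg j
  have hK0le1 : 1 / K0 ≤ 1 := by
    rw [div_le_one hK0p]
    exact hK0
  have hS : |s| ≤ 1 / 2 := by
    have h1 : 2 * K0 * ((j : ℝ) * ε) ≤ 2 * K0 * (1 / K) := mul_le_mul_of_nonneg_left hjε (by linarith)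
    have h2 : 2 * K0 * (1 / K) ≤ 1 / 100 := by linarith
    linarith
  have h01 : |(zz D w w' s j).1 0 1| ≤ 1 / K0 := by
    have h1 : 8 * K0 * ε ≤ 8 * K0 * (1 / K) := mul_le_mul_of_nonneg_left hεK (by linarith)
    linarith
  have h10 : |(zz D w w' s j).1 1 0| ≤ 1 / K0 := hy.trans hKinv
  obtain ⟨S1, lam, z, hz, hS1, z1, z2, l1, l2, z3, z4⟩ := hSP d D hFE hd (hdK.trans hKinv) t ε s (w j).2 (w' j).2 (w' (j + 1)).2
    (w j).1 (w' j).1 (w (j + 1)).1 (w' (j + 1)).1 (zz D w w' s j) ht1 ht2 hε.le (hεK.trans hKinv) hS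
    (hw.en j (by omega)) (hw'.en j (by omega)) (hw'.en (j + 1) hj) (hen j (by omega)) (hw'.st j (by omega)).2
    (hw.st j (by omega)).1 (hw'.st j (by omega)).1 rfl p1 p2 h01 h10
  have hzz : z = zz D w w' S1 (j + 1) := hz
  rw [hzz] at z1 z2 z3 z4
  set X01 : ℝ := (zz D w w' s j).1 0 1 with hX01
  set X10 : ℝ := (zz D w w' s j).1 1 0 with hX10
  set Z01 : ℝ := (zz D w w' S1 (j + 1)).1 0 1 with hZ01
  set Z10 : ℝ := (zz D w w' S1 (j + 1)).1 1 0 with hZ10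
  set e : ℝ := K0 * (d * (|X01| + |X10|) + ε) with he
  have hnum := RE4_num K0 ε d |X01| |X10| e K hK0 hK hε hKd (abs_nonneg _) (abs_nonneg _) he p4
  have hy0 := abs_nonneg X10
  have hlx : |lam * X10| = lam * |X10| := by rw [abs_mul, abs_of_nonneg (by linarith : (0 : ℝ) ≤ lam)]
  have hlow : 2 * |X10| - e ≤ |Z10| := by
    have h1 : |lam * X10| - |Z10| ≤ |lam * X10 - Z10| := abs_sub_abs_le_abs_sub _ _
    rw [abs_sub_comm, hlx] at h1
    nlinarith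
  have hup : |Z10| ≤ 10 * |X10| + e := by
    have h1 : |Z10| - |lam * X10| ≤ |Z10 - lam * X10| := abs_sub_abs_le_abs_sub _ _
    rw [hlx] at h1
    nlinarith
  have hK0ε : 0 < K0 * ε := by positivity
  have hK0ε1 : K0 * ε ≤ 1 / 200 := by
    have h1 : K0 * ε ≤ K0 * (1 / K) := mul_le_mul_of_nonneg_left hεK hK0p.le
    linarith
  have hKε : 200 * (K0 * ε) ≤ K * ε := by
    have : 200 * K0 * ε ≤ K * ε := mul_le_mul_of_nonneg_right hKK0 hε.le
    linarith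
  have hSabs : |S1| ≤ |s| + e := by
    have h1 : |S1| - |s| ≤ |S1 - s| := abs_sub_abs_le_abs_sub _ _
    linarith
  refine ⟨S1, ⟨z1, z2, ?_, ?_, ?_⟩, hy, ?_, ?_⟩
  · rw [← hZ10]
    have h1 : 2 * K0 * (((j + 1 : ℕ) : ℝ) * ε) = 2 * K0 * (j * ε) + 2 * (K0 * ε) := by
      push_cast
      ring
    rw [h1]
    linarith
  · rw [← hZ10, ← hZ01]
    linarith
  · rw [← hZ10]
    linarith
  · rw [← hZ10]
    linarith
  · intro h
    rw [← hZ10]
    have h2 : e < |X10| := by linarith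
    exact ⟨RE4_sign lam X10 Z10 e l1 (by linarith) z3 h2, by linarith⟩

theorem RE4_proof (hSP4 : SP4_stmt) : RE4_stmt := by
  obtain ⟨K0, hK0, hSP⟩ := hSP4
  refine ⟨200 * K0 ^ 2, by nlinarith, ?_⟩
  intro d D hFE hd hdK t ε u n w w' ht1 ht2 hε hn hw hw' hen h0 hu
  have hK200 : (200 : ℝ) ≤ 200 * K0 ^ 2 := by nlinarith
  have hstep := RE4_step K0 (200 * K0 ^ 2) hK0 rfl hSP d D hFE hd hdK t ε n w w' ht1 ht2 hε hn hw hw' hen
  have hKK0 : 200 * K0 ≤ 200 * K0 ^ 2 := by nlinarith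
  generalize 200 * K0 ^ 2 = K at hdK hn hu hstep hKK0 hK200 ⊢
  have key : ∀ k ≤ n, ∃ (S : ℕ → ℝ) (m : ℕ), m ≤ k ∧ S 0 = 0 ∧ (∀ j ≤ m, RE4_P D w w' K0 ε (S j) j) ∧
      (∀ j < m, RE4_Q D w w' K ε (S j) (S (j + 1)) j) ∧ (m = k ∨ 1 / K < |(zz D w w' (S m) m).1 1 0|) := by
    intro k
    induction k with
    | zero =>
      intro _
      refine ⟨fun _ => 0, 0, le_rfl, rfl, ?_, ?_, Or.inl rfl⟩
      · intro j hj
        obtain rfl : j = 0 := by omega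
        have hz : zz D w w' 0 0 = lM u := by
          unfold zz
          rw [hFE.zero, h0]
        unfold RE4_P
        rw [hz]
        have h00 : (lM u).1 0 0 = 1 := rfl
        have h11 : (lM u).1 1 1 = 1 := rfl
        have h01 : (lM u).1 0 1 = 0 := rfl
        have h10 : (lM u).1 1 0 = u := rfl
        rw [h00, h11, h01, h10, abs_zero]
        have hu0 := abs_nonneg u
        have hKi : 1 / K ≤ 1 / 2 := one_div_le_one_div_of_le (by norm_num) (by linarith)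
        refine ⟨rfl, one_pos, ?_, ?_, ?_⟩
        · simp only [Nat.cast_zero, zero_mul, mul_zero, zero_add]
          positivity
        · positivity
        · linarith
      · intro j hj
        omega
    | succ k ih =>
      intro hk
      obtain ⟨S, m, hm, hS0, hP, hQ, hex⟩ := ih (by omega)
      by_cases hexit : 1 / K < |(zz D w w' (S m) m).1 1 0|
      · exact ⟨S, m, by omega, hS0, hP, hQ, Or.inr hexit⟩
      · have hmk : m = k := hex.resolve_right hexit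
        subst hmk
        obtain ⟨s1, hP1, hQ1⟩ := hstep m hk (S m) (hP m le_rfl) (not_lt.1 hexit)
        have hne : ∀ j, j ≤ m → Function.update S (m + 1) s1 j = S j := by
          intro j hj
          rw [Function.update_of_ne (by omega)]
        have heq : Function.update S (m + 1) s1 (m + 1) = s1 := Function.update_self _ _ _
        refine ⟨Function.update S (m + 1) s1, m + 1, le_rfl, ?_, ?_, ?_, Or.inl rfl⟩
        · rw [hne 0 (Nat.zero_le _)]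
          exact hS0
        · intro j hj
          rcases Nat.lt_or_ge m j with h | h
          · obtain rfl : j = m + 1 := by omega
            rw [heq]
            exact hP1
          · rw [hne j h]
            exact hP j h
        · intro j hj
          rcases Nat.lt_or_ge j m with h | h
          · rw [hne j h.le, hne (j + 1) h]
            exact hQ j h
          · obtain rfl : j = m := by omega
            rw [hne j le_rfl, heq]
            exact hQ1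
  obtain ⟨S, m, hm, hS0, hP, hQ, hex⟩ := key n le_rfl
  refine ⟨S, m, hm, hS0, ?_, hQ, hex⟩
  intro j hj
  obtain ⟨p1, p2, p3, p4, p5⟩ := hP j hj
  have hjε : 0 ≤ (j : ℝ) * ε := by positivity
  refine ⟨p1, p2, ?_, ?_, p5⟩
  · have : 2 * K0 * (j * ε) ≤ K * (j * ε) := mul_le_mul_of_nonneg_right (by linarith) hjε
    linarith
  · have : 8 * K0 * ε ≤ K * ε := mul_le_mul_of_nonneg_right (by linarith) hε.le
    linarith

end

end Pool.Agent.VQ
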