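import Pool.Agent.helper55.VQ.SpecD
import Pool.Agent.helper44.VQ.VFB

/-!
# MP_07c750, project VQ, row EDV: long times
-/

set_option autoImplicit false

open scoped MatrixGroups ContDiff Topology UpperHalfPlane ComplexConjugate ENNReal
open UpperHalfPlane MeasureTheory Filter Set

namespace Pool.Agent.VQ

open Pool.Agent.RS
open Pool.Agent.RPQ (CEig mean VV IsOp)

noncomputable section

/-- the integral along the orbit -/
def EDV_J (D : Dyn) (h : ℍ → ℝ) (t : ℝ) (p : SL(2, ℝ) × ℝ) : ℝ := ∫ s in (0 : ℝ)..t, h (D.fl p.2 s p.1 • I)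

/-- the average over the step number `k` -/
def EDV_G (D : Dyn) (h : ℍ → ℝ) (σ : ℝ) (k : ℕ) (p : SL(2, ℝ) × ℝ) : ℝ := σ⁻¹ * (EDV_J D h ((k + 1) * σ) p - EDV_J D h (k * σ) p)

theorem EDV_smulI : Continuous (fun g : SL(2, ℝ) => (g • I : ℍ)) := continuous_id.smul continuous_const

section orbit

variable {Γ : Subgroup SL(2, ℝ)} {δ : ℝ} {B : ℕ → ℝ} {D : Dyn} {h : ℍ → ℝ}

theorem EDV_cts (hok : OKD Γ δ B D) (hh : Continuous h) (p : SL(2, ℝ) × ℝ) : Continuous (fun s => h (D.fl p.2 s p.1 • I)) := by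
  by_cases hE : |p.2| ≤ 1 / 8
  · have h1 : Continuous (fun s : ℝ => D.fl p.2 s p.1) := by
      have h2 : Continuous (fun s : ℝ => (p.2, s, p.1)) := by fun_prop
      rw [← continuousOn_univ] at h2 ⊢
      exact hok.cfl.comp h2 fun s _ => hE
    exact hh.comp (EDV_smulI.comp h1)
  · have h1 : ∀ s, D.fl p.2 s p.1 = p.1 := fun s => (hok.out p.2 s p.1 (not_le.1 hE)).1
    simp only [h1]
    exact continuous_const

theorem EDV_J_sub (hok : OKD Γ δ B D) (hh : Continuous h) (a b : ℝ) (p : SL(2, ℝ) × ℝ) :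
    EDV_J D h b p - EDV_J D h a p = ∫ s in a..b, h (D.fl p.2 s p.1 • I) :=
  intervalIntegral.integral_interval_sub_left ((EDV_cts hok hh p).intervalIntegrable _ _) ((EDV_cts hok hh p).intervalIntegrable _ _)

theorem EDV_J_ph (hHFA : HFA_stmt) (hok : OKD Γ δ B D) (hδ : δ ≤ 1 / 10) (hh : Continuous h) (s t : ℝ) (p : SL(2, ℝ) × ℝ) :
    EDV_J D h t (D.ph s p) = EDV_J D h (t + s) p - EDV_J D h s p := by
  rw [EDV_J_sub hok hh]
  have h1 : ∀ u, D.fl p.2 u (D.fl p.2 s p.1) = D.fl p.2 (u + s) p.1 := by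
    intro u
    by_cases hE : |p.2| ≤ 1 / 8
    · exact ((hHFA Γ δ B D hok hδ p.2 u s hE p.1).1).symm
    · have h1 : ∀ s g, D.fl p.2 s g = g := fun s g => (hok.out p.2 s g (not_le.1 hE)).1
      rw [h1, h1, h1]
  have h2 := intervalIntegral.integral_comp_add_right (a := 0) (b := t) (fun u => h (D.fl p.2 u p.1 • I)) s
  rw [zero_add] at h2
  rw [← h2]
  unfold EDV_J Dyn.ph
  simp only [h1]

theorem EDV_G_ph (hHFA : HFA_stmt) (hok : OKD Γ δ B D) (hδ : δ ≤ 1 / 10) (hh : Continuous h) (σ : ℝ) (k : ℕ) (p : SL(2, ℝ) × ℝ) :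
    EDV_G D h σ k (D.ph σ p) = EDV_G D h σ (k + 1) p := by
  unfold EDV_G
  rw [EDV_J_ph hHFA hok hδ hh, EDV_J_ph hHFA hok hδ hh]
  have e1 : ((k : ℝ) + 1) * σ + σ = (((k + 1 : ℕ) : ℝ) + 1) * σ := by push_cast; ring
  have e2 : (k : ℝ) * σ + σ = ((k + 1 : ℕ) : ℝ) * σ := by push_cast; ring
  rw [e1, e2]
  ring

theorem EDV_sum (σ : ℝ) (m : ℕ) (p : SL(2, ℝ) × ℝ) : ∑ k ∈ Finset.range m, EDV_G D h σ k p = σ⁻¹ * EDV_J D h (m * σ) p := by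
  induction m with
  | zero => simp [EDV_J]
  | succ m ih =>
    rw [Finset.sum_range_succ, ih]
    unfold EDV_G
    push_cast
    ring

theorem EDV_bd (hok : OKD Γ δ B D) (hh : Continuous h) (h01 : ∀ z, 0 ≤ h z ∧ h z ≤ 1) {σ : ℝ} (hσ : 0 < σ) (k : ℕ) (p : SL(2, ℝ) × ℝ) :
    |EDV_G D h σ k p| ≤ 1 := by
  unfold EDV_G
  rw [EDV_J_sub hok hh, abs_mul, abs_of_pos (inv_pos.2 hσ)]
  have h1 : ‖∫ s in (k * σ)..((k + 1) * σ), h (D.fl p.2 s p.1 • I)‖ ≤ 1 * |(k + 1) * σ - k * σ| := by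
    refine intervalIntegral.norm_integral_le_of_norm_le_const fun s _ => ?_
    rw [Real.norm_eq_abs, abs_of_nonneg (h01 _).1]
    exact (h01 _).2
  have e1 : ((k : ℝ) + 1) * σ - k * σ = σ := by ring
  rw [e1, one_mul, abs_of_pos hσ, Real.norm_eq_abs] at h1
  calc σ⁻¹ * |∫ s in (k * σ)..((k + 1) * σ), h (D.fl p.2 s p.1 • I)| ≤ σ⁻¹ * σ := mul_le_mul_of_nonneg_left h1 (inv_pos.2 hσ).le
    _ = 1 := inv_mul_cancel₀ hσ.ne'

theorem EDV_var (hok : OKD Γ δ B D) (hh : Continuous h) {L : ℝ} (hL : ∀ z w : ℍ, |h z - h w| ≤ L * dist z w) (hL0 : 0 ≤ L)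
    {σ τ d : ℝ} (hσ : 0 < σ) (k : ℕ) (hk : (k + 1) * σ ≤ τ) (p q : SL(2, ℝ) × ℝ)
    (hpq : ∀ t, 0 ≤ t → t ≤ τ → dist (D.fl p.2 t p.1 • I : ℍ) (D.fl q.2 t q.1 • I) ≤ d) :
    |EDV_G D h σ k p - EDV_G D h σ k q| ≤ L * d := by
  unfold EDV_G
  rw [← mul_sub, EDV_J_sub hok hh, EDV_J_sub hok hh,
    ← intervalIntegral.integral_sub ((EDV_cts hok hh p).intervalIntegrable _ _) ((EDV_cts hok hh q).intervalIntegrable _ _),
    abs_mul, abs_of_pos (inv_pos.2 hσ)]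
  have hk0 : (0 : ℝ) ≤ k := Nat.cast_nonneg k
  have h1 : ‖∫ s in (k * σ)..((k + 1) * σ), (h (D.fl p.2 s p.1 • I) - h (D.fl q.2 s q.1 • I))‖ ≤ (L * d) * |(k + 1) * σ - k * σ| := by
    refine intervalIntegral.norm_integral_le_of_norm_le_const fun s hs => ?_
    rw [uIoc_of_le (by nlinarith)] at hs
    have hs0 : 0 ≤ s := by
      have := hs.1
      have : 0 ≤ k * σ := by positivity
      linarith
    exact (hL _ _).trans (mul_le_mul_of_nonneg_left (hpq s hs0 (hs.2.trans hk)) hL0)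
  have e1 : ((k : ℝ) + 1) * σ - k * σ = σ := by ring
  rw [e1, abs_of_pos hσ, Real.norm_eq_abs] at h1
  calc σ⁻¹ * |∫ s in (k * σ)..((k + 1) * σ), (h (D.fl p.2 s p.1 • I) - h (D.fl q.2 s q.1 • I))| ≤ σ⁻¹ * (L * d * σ) :=
        mul_le_mul_of_nonneg_left h1 (inv_pos.2 hσ).le
    _ = L * d := by field_simp

/-- Fubini -/
theorem EDV_fub (hok : OKD Γ δ B D) (hh : Continuous h) (h01 : ∀ z, 0 ≤ h z ∧ h z ≤ 1) {F : Set ℍ} (hF : MeasurableSet F) {R : ℝ}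
    (hw : 2 * R ^ (-(1 / 4) : ℝ) ≤ 1 / 8) {ψ : SL(2, ℝ) × ℝ → ℝ} (hψ : IntegrableOn ψ (PW F 2 R) mP) {σ : ℝ} (hσ : 0 ≤ σ) :
    IntervalIntegrable (fun s => ∫ p in PW F 2 R, h (D.fl p.2 s p.1 • I) * ψ p ∂mP) volume 0 σ ∧
    ∫ p in PW F 2 R, EDV_J D h σ p * ψ p ∂mP = ∫ s in (0 : ℝ)..σ, ∫ p in PW F 2 R, h (D.fl p.2 s p.1 • I) * ψ p ∂mP := by
  have : SigmaFinite mG := RS.A_GMG.2.2.1
  have : SigmaFinite mP := by unfold mP; infer_instance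
  have hPW : MeasurableSet (PW F 2 R) := (RS.A_GMG.1 F hF).1.prod measurableSet_Icc
  have hc : ContinuousOn (fun x : (SL(2, ℝ) × ℝ) × ℝ => h (D.fl x.1.2 x.2 x.1.1 • I)) (PW F 2 R ×ˢ Ioc 0 σ) := by
    have h1 : Continuous (fun x : (SL(2, ℝ) × ℝ) × ℝ => (x.1.2, x.2, x.1.1)) := by fun_prop
    have h2 : ContinuousOn (fun x : (SL(2, ℝ) × ℝ) × ℝ => D.fl x.1.2 x.2 x.1.1) (PW F 2 R ×ˢ Ioc 0 σ) :=
      hok.cfl.comp h1.continuousOn fun x hx => (abs_le.2 hx.1.2).trans hw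
    exact (hh.comp EDV_smulI).comp_continuousOn h2
  have hint : Integrable (Function.uncurry fun (p : SL(2, ℝ) × ℝ) (s : ℝ) => h (D.fl p.2 s p.1 • I) * ψ p)
      ((mP.restrict (PW F 2 R)).prod ((volume : Measure ℝ).restrict (Ioc 0 σ))) := by
    have h1 : Integrable (fun x : (SL(2, ℝ) × ℝ) × ℝ => ψ x.1) ((mP.restrict (PW F 2 R)).prod ((volume : Measure ℝ).restrict (Ioc 0 σ))) :=
      Integrable.comp_fst hψ _
    refine h1.norm.mono' (AEStronglyMeasurable.mul ?_ h1.aestronglyMeasurable) (Eventually.of_forall fun x => ?_)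
    · rw [Measure.prod_restrict]
      exact hc.aestronglyMeasurable (hPW.prod measurableSet_Ioc)
    · show ‖h (D.fl x.1.2 x.2 x.1.1 • I) * ψ x.1‖ ≤ ‖ψ x.1‖
      rw [norm_mul, Real.norm_eq_abs, abs_of_nonneg (h01 _).1]
      exact mul_le_of_le_one_left (norm_nonneg _) (h01 _).2
  constructor
  · rw [intervalIntegrable_iff_integrableOn_Ioc_of_le hσ]
    exact hint.integral_prod_right
  · rw [intervalIntegral.integral_of_le hσ, ← integral_integral_swap hint]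
    congr 1
    funext p
    rw [integral_mul_const, EDV_J, intervalIntegral.integral_of_le hσ]

end orbit

/-- the choice of `R` -/
theorem EDV_Q (m L : ℝ) (hm : 0 ≤ m) (hL : 0 ≤ L) : ∃ Q : ℝ, 0 ≤ Q ∧ ∀ R : ℝ, Q ≤ R → (m + 1) * (L + 1) ≤ R ^ (1 / 1200 : ℝ) := by
  have h0 : 0 ≤ (m + 1) * (L + 1) := by positivity
  generalize (m + 1) * (L + 1) = x at h0
  refine ⟨x ^ (1200 : ℝ), Real.rpow_nonneg h0 _, fun R hR => ?_⟩
  have h1 : x = (x ^ (1200 : ℝ)) ^ (1 / 1200 : ℝ) := by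
    rw [← Real.rpow_mul h0]
    norm_num
  rw [h1]
  exact Real.rpow_le_rpow (Real.rpow_nonneg h0 _) hR (by norm_num)

theorem EDV_exp {R L m : ℝ} (hR1 : 1 ≤ R) (hL : 0 ≤ L) (hm : 0 ≤ m) (e3 : (m + 1) * (L + 1) ≤ R ^ (1 / 1200 : ℝ)) :
    m * (L * R ^ (-(1 / 3) : ℝ) * R ^ (1 / 200 : ℝ) + R ^ (-(1 / 300) : ℝ)) + (1 + L) * R ^ (-(1 / 250) : ℝ) ≤ R ^ (-(1 / 400) : ℝ) := by
  have hR0 : 0 < R := by linarith
  have e1 : R ^ (-(1 / 3) : ℝ) * R ^ (1 / 200 : ℝ) ≤ R ^ (-(1 / 300) : ℝ) := by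
    rw [← Real.rpow_add hR0]
    exact Real.rpow_le_rpow_of_exponent_le hR1 (by norm_num)
  have e2 : R ^ (-(1 / 250) : ℝ) ≤ R ^ (-(1 / 300) : ℝ) := Real.rpow_le_rpow_of_exponent_le hR1 (by norm_num)
  have e4 : R ^ (1 / 1200 : ℝ) * R ^ (-(1 / 300) : ℝ) = R ^ (-(1 / 400) : ℝ) := by
    rw [← Real.rpow_add hR0]
    norm_num
  have e5 : 0 < R ^ (-(1 / 300) : ℝ) := by positivity
  have e6 : L * R ^ (-(1 / 3) : ℝ) * R ^ (1 / 200 : ℝ) ≤ L * R ^ (-(1 / 300) : ℝ) := by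
    rw [mul_assoc]
    exact mul_le_mul_of_nonneg_left e1 hL
  calc m * (L * R ^ (-(1 / 3) : ℝ) * R ^ (1 / 200 : ℝ) + R ^ (-(1 / 300) : ℝ)) + (1 + L) * R ^ (-(1 / 250) : ℝ)
      ≤ m * (L * R ^ (-(1 / 300) : ℝ) + R ^ (-(1 / 300) : ℝ)) + (1 + L) * R ^ (-(1 / 300) : ℝ) := by
        refine add_le_add (mul_le_mul_of_nonneg_left (by linarith) hm) (mul_le_mul_of_nonneg_left e2 (by linarith))
    _ = (m + 1) * (L + 1) * R ^ (-(1 / 300) : ℝ) := by ring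
    _ ≤ R ^ (1 / 1200 : ℝ) * R ^ (-(1 / 300) : ℝ) := mul_le_mul_of_nonneg_right e3 e5.le
    _ = R ^ (-(1 / 400) : ℝ) := e4

theorem EDV_proof (hEDI : EDI_stmt) (hEDS : EDS_stmt) (hEDG : EDG_stmt) (hEDW : EDW_stmt) (hHFA : HFA_stmt) (hVTN : VTN_stmt) (hVUB : VUB_stmt) :
    EDV_stmt := by
  obtain ⟨C1, hC1, H1⟩ := hEDI
  obtain ⟨C2, hC2, H2⟩ := hEDS
  obtain ⟨C3, hC3, H3⟩ := hEDG
  obtain ⟨C4, hC4, H4⟩ := hEDW
  obtain ⟨C5, hC5, H5⟩ := hVTN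
  refine ⟨C1 + C2 + C3 + C4 + C5, by linarith, fun ch B A L hch hA hL0 => ?_⟩
  obtain ⟨R1, hR1, K1⟩ := H1 ch B A hch (Adm_mono hA hC1 (by linarith))
  obtain ⟨R2, hR2, K2⟩ := H2 ch B A hch (Adm_mono hA hC2 (by linarith))
  obtain ⟨R3, hR3, K3⟩ := H3 B A (Adm_mono hA hC3 (by linarith))
  obtain ⟨R4, hR4, K4⟩ := H4 ch B A hch (Adm_mono hA hC4 (by linarith))
  obtain ⟨R5, hR5, K5⟩ := H5 ch B A hch (Adm_mono hA hC5 (by linarith))
  have hm1 : (1 : ℝ) ≤ A.m := by exact_mod_cast hA.m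
  obtain ⟨Q, hQ0, hQ⟩ := EDV_Q (A.m : ℝ) L (by linarith) hL0
  refine ⟨R1 + R2 + R3 + R4 + R5 + 65536 + Q, by linarith, ?_⟩
  intro R δ Γ F D f F' μ φ h hR hΓ hF hok hδ hEg hInv h01 hLip
  have hRP := hQ R (by linarith)
  have hRc : 65536 ≤ R := by linarith
  have hRone : 1 ≤ R := by linarith
  have hDm : Dm Γ F := Or.inl ⟨hΓ, hF⟩
  obtain ⟨hw1, -⟩ := VFB_win hRc
  obtain ⟨hFP, -, hnP, -, -⟩ := K4 R δ Γ F D f F' μ φ (by linarith) hΓ hF hok hδ hEg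
  obtain ⟨-, hth⟩ := K5 R δ Γ F D (by linarith) hDm hok hδ
  have hPU : PU Γ D.U := (hVUB Γ δ B D.U hok.pot hδ).1
  have hU0 : ∀ z, D.U z ≠ 0 := fun z => by
    have := (hPU.bd z).1
    linarith
  have hh : Continuous h := hInv.1
  have hσ : 0 < A.sg R := mul_pos hA.e3 (Real.log_pos (by linarith))
  have hnn : 0 ≤ nn F φ := integral_nonneg fun z => by positivity
  -- the functions J
  have hf0 : QU.Inv Γ (fun z => h z / D.U z) := by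
    refine ⟨hh.div hPU.inv.1 hU0, fun γ z => ?_⟩
    show h (γ • z) / D.U (γ • z) = h z / D.U z
    rw [hInv.2, hPU.inv.2]
  have hJth : ∀ t, EDV_J D h t = fun p => 2 / R * thP D (fun z => h z / D.U z) R t p := by
    intro t
    funext p
    have e1 : ∀ z, D.U z * (h z / D.U z) = h z := fun z => mul_div_cancel₀ _ (hU0 z)
    simp only [thP, e1, EDV_J]
    have : R ≠ 0 := by linarith
    field_simp
  have hJm : ∀ t, Measurable (EDV_J D h t) := fun t => by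
    rw [hJth t]
    exact (hth _ t hf0).1.const_mul _
  have hJi : ∀ t (γ : Γ) (p : SL(2, ℝ) × ℝ), EDV_J D h t ((γ : SL(2, ℝ)) * p.1, p.2) = EDV_J D h t p := fun t γ p => by
    rw [hJth t]
    show 2 / R * thP D (fun z => h z / D.U z) R t ((γ : SL(2, ℝ)) * p.1, p.2) = 2 / R * thP D (fun z => h z / D.U z) R t p
    rw [(hth _ t hf0).2.1 γ p]
  have hGm : ∀ k, Measurable (EDV_G D h (A.sg R) k) := fun k => ((hJm _).sub (hJm _)).const_mul _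
  have hGi : ∀ k (γ : Γ) (p : SL(2, ℝ) × ℝ), EDV_G D h (A.sg R) k ((γ : SL(2, ℝ)) * p.1, p.2) = EDV_G D h (A.sg R) k p := fun k γ p => by
    simp only [EDV_G, hJi]
  have hGb : ∀ k p, |EDV_G D h (A.sg R) k p| ≤ 1 := fun k p => EDV_bd hok hh h01 hσ k p
  have hSV : ∀ k, k + 1 ≤ A.m → SV Γ A R (L * R ^ (-(1 / 3) : ℝ)) (fun p => ((EDV_G D h (A.sg R) k p : ℝ) : ℂ)) := by
    intro k hk
    refine ⟨Complex.measurable_ofReal.comp (hGm k), fun γ p => ?_, fun p => ?_, fun p q hp hq hpq => ?_⟩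
    · show ((EDV_G D h (A.sg R) k ((γ : SL(2, ℝ)) * p.1, p.2) : ℝ) : ℂ) = ((EDV_G D h (A.sg R) k p : ℝ) : ℂ)
      rw [hGi]
    · rw [Complex.norm_real, Real.norm_eq_abs]
      exact hGb k p
    · rw [← Complex.ofReal_sub, Complex.norm_real, Real.norm_eq_abs]
      refine EDV_var hok hh hLip hL0 hσ k (τ := A.tu R) ?_ p q fun t ht0 ht => ?_
      · have h1 : ((k : ℝ) + 1) ≤ A.m := by exact_mod_cast hk
        exact mul_le_mul_of_nonneg_right h1 hσ.le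
      · exact K3 R δ t Γ D p q (by linarith) hok hδ hp hq hpq ht0 ht
  -- the integrals
  have hΦi : IntegrableOn (fun p => ‖QF D.U ch A.z R φ p‖ ^ 2) (PW F 2 R) mP := VFB_fp hF.meas R hFP
  have hGΦ : ∀ k, IntegrableOn (fun p => EDV_G D h (A.sg R) k p * ‖QF D.U ch A.z R φ p‖ ^ 2) (PW F 2 R) mP := by
    intro k
    refine hΦi.mono' ((hGm k).aestronglyMeasurable.mul hΦi.aestronglyMeasurable) (Eventually.of_forall fun p => ?_)
    rw [norm_mul, Real.norm_eq_abs, Real.norm_of_nonneg (by positivity)]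
    exact mul_le_of_le_one_left (by positivity) (hGb k p)
  set e : ℝ := L * R ^ (-(1 / 3) : ℝ) * R ^ (1 / 200 : ℝ) + R ^ (-(1 / 300) : ℝ) with he
  have he0 : 0 ≤ e := by positivity
  have hstep : ∀ k, k + 1 ≤ A.m → |(∫ p in PW F 2 R, EDV_G D h (A.sg R) (k + 1) p * ‖QF D.U ch A.z R φ p‖ ^ 2 ∂mP) -
      ∫ p in PW F 2 R, EDV_G D h (A.sg R) k p * ‖QF D.U ch A.z R φ p‖ ^ 2 ∂mP| ≤ e * nn F φ := by
    intro k hk
    have h1 := K1 R δ (L * R ^ (-(1 / 3) : ℝ)) Γ F D f F' μ φ (EDV_G D h (A.sg R) k) (by linarith) hΓ hF hok hδ hEg (by positivity) (hSV k hk)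
    simp only [EDV_G_ph hHFA hok hδ hh] at h1
    exact h1
  have hind : ∀ k, k ≤ A.m → |(∫ p in PW F 2 R, EDV_G D h (A.sg R) k p * ‖QF D.U ch A.z R φ p‖ ^ 2 ∂mP) -
      ∫ p in PW F 2 R, EDV_G D h (A.sg R) 0 p * ‖QF D.U ch A.z R φ p‖ ^ 2 ∂mP| ≤ k * (e * nn F φ) := by
    intro k
    induction k with
    | zero => intro _; simp
    | succ k ih =>
      intro hk
      have h1 := ih (by omega)
      have h2 := hstep k hk
      push_cast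
      rw [abs_le] at h1 h2 ⊢
      constructor <;> linarith [h1.1, h1.2, h2.1, h2.2]
  have hav : ∀ p, avP D h (A.tu R) p = (A.m : ℝ)⁻¹ * ∑ k ∈ Finset.range A.m, EDV_G D h (A.sg R) k p := by
    intro p
    rw [EDV_sum]
    unfold avP EDV_J Prm.tu
    rw [mul_inv]
    ring
  have hIav : ∫ p in PW F 2 R, avP D h (A.tu R) p * ‖QF D.U ch A.z R φ p‖ ^ 2 ∂mP =
      (A.m : ℝ)⁻¹ * ∑ k ∈ Finset.range A.m, ∫ p in PW F 2 R, EDV_G D h (A.sg R) k p * ‖QF D.U ch A.z R φ p‖ ^ 2 ∂mP := by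
    have h1 : ∀ p, avP D h (A.tu R) p * ‖QF D.U ch A.z R φ p‖ ^ 2 =
        (A.m : ℝ)⁻¹ * ∑ k ∈ Finset.range A.m, EDV_G D h (A.sg R) k p * ‖QF D.U ch A.z R φ p‖ ^ 2 := by
      intro p
      rw [hav, mul_assoc, Finset.sum_mul]
    simp only [h1]
    rw [integral_const_mul, integral_finsetSum _ fun k _ => hGΦ k]
  have hA1 : |(∫ p in PW F 2 R, avP D h (A.tu R) p * ‖QF D.U ch A.z R φ p‖ ^ 2 ∂mP) -
      ∫ p in PW F 2 R, EDV_G D h (A.sg R) 0 p * ‖QF D.U ch A.z R φ p‖ ^ 2 ∂mP| ≤ A.m * (e * nn F φ) := by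
    rw [hIav]
    set I0 := ∫ p in PW F 2 R, EDV_G D h (A.sg R) 0 p * ‖QF D.U ch A.z R φ p‖ ^ 2 ∂mP with hI0
    have h1 : (A.m : ℝ)⁻¹ * ∑ k ∈ Finset.range A.m, ∫ p in PW F 2 R, EDV_G D h (A.sg R) k p * ‖QF D.U ch A.z R φ p‖ ^ 2 ∂mP - I0 =
        (A.m : ℝ)⁻¹ * ∑ k ∈ Finset.range A.m, ((∫ p in PW F 2 R, EDV_G D h (A.sg R) k p * ‖QF D.U ch A.z R φ p‖ ^ 2 ∂mP) - I0) := by
      rw [Finset.sum_sub_distrib, Finset.sum_const, Finset.card_range, nsmul_eq_mul, mul_sub, ← mul_assoc (A.m : ℝ)⁻¹ (A.m : ℝ) I0,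
        inv_mul_cancel₀ (by linarith), one_mul]
    rw [h1, abs_mul, abs_of_pos (inv_pos.2 (by linarith))]
    have h2 : |∑ k ∈ Finset.range A.m, ((∫ p in PW F 2 R, EDV_G D h (A.sg R) k p * ‖QF D.U ch A.z R φ p‖ ^ 2 ∂mP) - I0)| ≤
        ∑ _k ∈ Finset.range A.m, (A.m : ℝ) * (e * nn F φ) := by
      refine (Finset.abs_sum_le_sum_abs _ _).trans (Finset.sum_le_sum fun k hk => ?_)
      have hk' := Finset.mem_range.1 hk
      refine (hind k hk'.le).trans (mul_le_mul_of_nonneg_right ?_ (by positivity))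
      exact_mod_cast hk'.le
    rw [Finset.sum_const, Finset.card_range, nsmul_eq_mul] at h2
    calc (A.m : ℝ)⁻¹ * |∑ k ∈ Finset.range A.m, ((∫ p in PW F 2 R, EDV_G D h (A.sg R) k p * ‖QF D.U ch A.z R φ p‖ ^ 2 ∂mP) - I0)|
        ≤ (A.m : ℝ)⁻¹ * (A.m * (A.m * (e * nn F φ))) := mul_le_mul_of_nonneg_left h2 (inv_pos.2 (by linarith)).le
      _ = A.m * (e * nn F φ) := by
          rw [← mul_assoc, inv_mul_cancel₀ (by linarith), one_mul]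
  -- the first step
  obtain ⟨hKi, hKe⟩ := EDV_fub hok hh h01 hF.meas hw1 hΦi hσ.le
  have hA2 : |(∫ p in PW F 2 R, EDV_G D h (A.sg R) 0 p * ‖QF D.U ch A.z R φ p‖ ^ 2 ∂mP) - ∫ z in F, h z * ‖φ z‖ ^ 2| ≤
      (1 + L) * R ^ (-(1 / 250) : ℝ) * nn F φ := by
    have h1 : ∫ p in PW F 2 R, EDV_G D h (A.sg R) 0 p * ‖QF D.U ch A.z R φ p‖ ^ 2 ∂mP =
        (A.sg R)⁻¹ * ∫ s in (0 : ℝ)..(A.sg R), ∫ p in PW F 2 R, h (D.fl p.2 s p.1 • I) * ‖QF D.U ch A.z R φ p‖ ^ 2 ∂mP := by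
      rw [← hKe, ← integral_const_mul]
      congr 1
      funext p
      have e1 : EDV_J D h 0 p = 0 := intervalIntegral.integral_same
      simp only [EDV_G, Nat.cast_zero, zero_add, one_mul, zero_mul, e1, sub_zero]
      ring
    have h2 : ‖∫ s in (0 : ℝ)..(A.sg R), ((∫ p in PW F 2 R, h (D.fl p.2 s p.1 • I) * ‖QF D.U ch A.z R φ p‖ ^ 2 ∂mP) - ∫ z in F, h z * ‖φ z‖ ^ 2)‖ ≤
        ((1 + L) * R ^ (-(1 / 250) : ℝ) * nn F φ) * |A.sg R - 0| := by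
      refine intervalIntegral.norm_integral_le_of_norm_le_const fun s hs => ?_
      rw [uIoc_of_le hσ.le] at hs
      exact K2 R δ s L Γ F D f F' μ φ h (by linarith) hΓ hF hok hδ hEg hInv h01 hL0 hLip hs.1.le hs.2
    rw [intervalIntegral.integral_sub hKi (intervalIntegrable_const), intervalIntegral.integral_const, sub_zero, abs_of_pos hσ, smul_eq_mul,
      Real.norm_eq_abs] at h2
    rw [h1]
    set J0 := ∫ s in (0 : ℝ)..(A.sg R), ∫ p in PW F 2 R, h (D.fl p.2 s p.1 • I) * ‖QF D.U ch A.z R φ p‖ ^ 2 ∂mP with hJ0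
    set c0 := ∫ z in F, h z * ‖φ z‖ ^ 2 with hc0
    have h3 : (A.sg R)⁻¹ * J0 - c0 = (A.sg R)⁻¹ * (J0 - A.sg R * c0) := by
      rw [mul_sub, ← mul_assoc (A.sg R)⁻¹ (A.sg R) c0, inv_mul_cancel₀ hσ.ne', one_mul]
    rw [h3, abs_mul, abs_of_pos (inv_pos.2 hσ)]
    calc (A.sg R)⁻¹ * |J0 - A.sg R * c0| ≤ (A.sg R)⁻¹ * (((1 + L) * R ^ (-(1 / 250) : ℝ) * nn F φ) * A.sg R) :=
          mul_le_mul_of_nonneg_left h2 (inv_pos.2 hσ).le
      _ = (1 + L) * R ^ (-(1 / 250) : ℝ) * nn F φ := by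
          rw [mul_comm, mul_assoc, mul_inv_cancel₀ hσ.ne', mul_one]
  have hfin := EDV_exp hRone hL0 (by linarith : (0 : ℝ) ≤ A.m) hRP
  have hfin2 := mul_le_mul_of_nonneg_right hfin hnn
  rw [← he] at hfin2
  rw [abs_le] at hA1 hA2 ⊢
  constructor <;> nlinarith [hA1.1, hA1.2, hA2.1, hA2.2]

end

end Pool.Agent.VQ
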